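import Mathlib

set_option autoImplicit false

/-!
# Ultrafilters meeting `ℵ₁` many dense families
-/

namespace Q202.HX

open Filter Set Cardinal

theorem pseudo (f : Filter ℕ) [f.NeBot] [f.IsCountablyGenerated] (hf : f ≤ cofinite) :
    ∃ A : Set ℕ, A.Infinite ∧ ∀ F ∈ f, (A \ F).Finite := by
  obtain ⟨x, hx⟩ := exists_seq_tendsto f
  refine ⟨range x, ?_, ?_⟩
  · intro hfin
    have h1 : (range x)ᶜ ∈ f := hf hfin.compl_mem_cofinite
    have h2 := hx.eventually (eventually_of_mem h1 (fun y hy => hy))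
    obtain ⟨n, hn⟩ := h2.exists
    exact hn ⟨n, rfl⟩
  · intro F hF
    have h1 : ∀ᶠ n in atTop, x n ∈ F := hx hF
    rw [← Nat.cofinite_eq_atTop] at h1
    have h2 : {n | ¬ x n ∈ F}.Finite := h1
    apply (h2.image x).subset
    rintro _ ⟨⟨n, rfl⟩, hn⟩
    exact ⟨n, hn, rfl⟩

theorem inf_le_iff' (S T : Set ℕ) (h : (S \ T).Finite) : cofinite ⊓ 𝓟 S ≤ 𝓟 T := by
  rw [le_principal_iff, mem_inf_principal]
  have : {x | x ∈ S → x ∈ T}ᶜ = S \ T := by
    ext x
    simp
  rw [mem_cofinite, this]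
  exact h

theorem chain_neBot {κ : Type} (T : κ → Set ℕ) (hT : ∀ i, (T i).Infinite)
    (hch : ∀ i j, (T i \ T j).Finite ∨ (T j \ T i).Finite) :
    (cofinite ⊓ ⨅ i, 𝓟 (T i)).NeBot := by
  rcases isEmpty_or_nonempty κ with hκ | hκ
  · rw [iInf_of_empty, inf_top_eq]
    infer_instance
  · rw [inf_iInf]
    apply iInf_neBot_of_directed'
    · intro i j
      rcases hch i j with h | h
      · exact ⟨i, le_rfl, le_inf inf_le_left (inf_le_iff' _ _ h)⟩
      · exact ⟨j, le_inf inf_le_left (inf_le_iff' _ _ h), le_rfl⟩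
    · intro i
      exact cofinite_inf_principal_neBot_iff.2 (hT i)

theorem exists_wo (ι : Type) (h : #ι ≤ ℵ₁) :
    ∃ (r : ι → ι → Prop) (_ : IsWellOrder ι r), ∀ i, Countable {j // r j i} := by
  obtain ⟨r, wo, hr⟩ := exists_ord_eq ι
  refine ⟨r, wo, ?_⟩
  intro i
  rw [← mk_le_aleph0_iff, ← Ordinal.card_typein, ← Order.lt_succ_iff, succ_aleph0]
  exact (card_typein_lt i hr).trans_le h

theorem generic {ι : Type} (hι : #ι ≤ ℵ₁) (𝒟 : ι → Set (Set ℕ))
    (h𝒟 : ∀ i A, A.Infinite → ∃ B ⊆ A, B.Infinite ∧ B ∈ 𝒟 i) :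
    ∃ V : Ultrafilter ℕ, (V : Filter ℕ) ≤ cofinite ∧ ∀ i, ∃ B ∈ V, B ∈ 𝒟 i := by
  classical
  obtain ⟨r, wo, hr⟩ := exists_wo ι hι
  have hwf : WellFounded r := wo.wf
  let T : ι → Set ℕ := hwf.fix (fun i IH =>
    if h : ∃ B : Set ℕ, B.Infinite ∧ B ∈ 𝒟 i ∧ ∀ j (hj : r j i), (B \ IH j hj).Finite
    then h.choose else ∅)
  have hTeq : ∀ i, T i = if h : ∃ B : Set ℕ, B.Infinite ∧ B ∈ 𝒟 i ∧
      ∀ j (_ : r j i), (B \ T j).Finite then h.choose else ∅ := by
    intro i
    exact hwf.fix_eq _ i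
  have hT : ∀ i, (T i).Infinite ∧ T i ∈ 𝒟 i ∧ ∀ j (_ : r j i), (T i \ T j).Finite := by
    intro i
    induction i using hwf.induction with
    | _ i ih =>
      have hex : ∃ B : Set ℕ, B.Infinite ∧ B ∈ 𝒟 i ∧ ∀ j (_ : r j i), (B \ T j).Finite := by
        have _ := hr i
        have hne : (cofinite ⊓ ⨅ j : {j // r j i}, 𝓟 (T j)).NeBot := by
          apply chain_neBot
          · intro j
            exact (ih j.1 j.2).1
          · intro j k
            rcases trichotomous_of r j.1 k.1 with h | h | h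
            · right
              exact (ih k.1 k.2).2.2 _ h
            · left
              rw [h]
              simp
            · left
              exact (ih j.1 j.2).2.2 _ h
        have hcg : (cofinite ⊓ ⨅ j : {j // r j i}, 𝓟 (T j)).IsCountablyGenerated := by
          rw [Nat.cofinite_eq_atTop]
          infer_instance
        obtain ⟨A, hA, hA2⟩ := pseudo (cofinite ⊓ ⨅ j : {j // r j i}, 𝓟 (T j)) inf_le_left
        obtain ⟨B, hBA, hB, hB2⟩ := h𝒟 i A hA
        refine ⟨B, hB, hB2, ?_⟩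
        intro j hj
        apply (hA2 (T j) ?_).subset (sdiff_subset_sdiff_left hBA)
        exact mem_inf_of_right (mem_iInf_of_mem ⟨j, hj⟩ (mem_principal_self _))
      rw [hTeq i, dif_pos hex]
      exact hex.choose_spec
  have hne : (cofinite ⊓ ⨅ i, 𝓟 (T i)).NeBot := by
    apply chain_neBot
    · intro j
      exact (hT j).1
    · intro j k
      rcases trichotomous_of r j k with h | h | h
      · right
        exact (hT k).2.2 _ h
      · left
        rw [h]
        simp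
      · left
        exact (hT j).2.2 _ h
  refine ⟨Ultrafilter.of (cofinite ⊓ ⨅ i, 𝓟 (T i)), (Ultrafilter.of_le _).trans inf_le_left, ?_⟩
  intro i
  refine ⟨T i, ?_, (hT i).2.1⟩
  apply (Ultrafilter.of_le _)
  exact mem_inf_of_right (mem_iInf_of_mem i (mem_principal_self _))

end Q202.HX
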