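import Mathlib

set_option autoImplicit false

/-!
# Separating two sequences of ultrafilters

If `P n ≠ Q n` are ultrafilters for all `n` in an infinite set `A`, there are an infinite `B ⊆ A`
and a set `C` with `C ∈ P n`, `C ∉ Q n` for all `n ∈ B`.
-/

namespace Q202.HX

open Filter Set Topology Function

variable {α : Type}

theorem discrete_seq (P : ℕ → Ultrafilter α) (S : Set ℕ) (hinf : (P '' S).Infinite) :
    ∃ (ν : ℕ → ℕ) (D : ℕ → Set α), (∀ i, ν i ∈ S) ∧ (∀ i, D i ∈ P (ν i)) ∧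
      Pairwise (Disjoint on D) := by
  have _ : Infinite (P '' S) := hinf.to_subtype
  obtain ⟨f, hf⟩ := exists_topology_isEmbedding_nat (P '' S)
  -- basic sets isolating the points
  have hC : ∀ i, ∃ C : Set α, C ∈ (f i).1 ∧ ∀ j, j ≠ i → C ∉ (f j).1 := by
    intro i
    have h1 : IsOpen ({i} : Set ℕ) := isOpen_discrete _
    rw [hf.isInducing.isOpen_iff] at h1
    obtain ⟨U, hU, hUi⟩ := h1
    rw [isOpen_induced_iff] at hU
    obtain ⟨W, hW, rfl⟩ := hU
    have h2 : (f i).1 ∈ W := by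
      have : i ∈ f ⁻¹' (Subtype.val ⁻¹' W) := by rw [hUi]; rfl
      exact this
    obtain ⟨_, ⟨C, rfl⟩, hCi, hCW⟩ := ultrafilterBasis_is_basis.exists_subset_of_mem_open h2 hW
    refine ⟨C, hCi, ?_⟩
    intro j hj hCj
    have h3 : j ∈ f ⁻¹' (Subtype.val ⁻¹' W) := hCW hCj
    rw [hUi] at h3
    exact hj h3
  choose C hC1 hC2 using hC
  choose ν hν1 hν2 using fun i => (f i).2
  refine ⟨ν, disjointed C, hν1, ?_, disjoint_disjointed C⟩
  intro i
  rw [hν2]
  have h1 : disjointed C i = C i ∩ ⋂ j ∈ Set.Iio i, (C j)ᶜ := by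
    rw [disjointed_eq_inter_compl]
    congr 1
  rw [h1]
  refine inter_mem (hC1 i) ?_
  rw [biInter_mem (finite_Iio i)]
  intro j hj
  have : C j ∉ (f i).1 := hC2 j i (by
    rintro rfl
    exact lt_irrefl i (Set.mem_Iio.1 hj))
  exact Ultrafilter.compl_mem_iff_notMem.2 this

theorem sep_aux (P Q : ℕ → Ultrafilter α) (A : Set ℕ) (hPQ : ∀ n ∈ A, P n ≠ Q n)
    (hinf : (P '' A).Infinite)
    (hst : ∀ C : Set α, {n | n ∈ A ∧ ¬ (C ∈ P n ↔ C ∈ Q n)}.Finite) : False := by
  classical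
  obtain ⟨ν, D, hνA, hDP, hdisj⟩ := discrete_seq P A hinf
  -- shrink the sets
  have hE : ∀ i, ∃ E : Set α, E ∈ P (ν i) ∧ E ∉ Q (ν i) := by
    intro i
    by_contra hcon
    push Not at hcon
    apply hPQ (ν i) (hνA i)
    apply Ultrafilter.coe_injective
    symm
    apply (P (ν i)).unique
    · intro s hs
      exact hcon s hs
  choose E hE1 hE2 using hE
  set D' : ℕ → Set α := fun i => D i ∩ E i with hD'
  have hD'P : ∀ i, D' i ∈ P (ν i) := fun i => inter_mem (hDP i) (hE1 i)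
  have hD'Q : ∀ i, D' i ∉ Q (ν i) := fun i h => hE2 i (mem_of_superset h inter_subset_right)
  have hdisj' : ∀ i j x, x ∈ D' i → x ∈ D' j → i = j := by
    intro i j x hi hj
    by_contra hne
    exact (Set.disjoint_left.1 (hdisj hne)) hi.1 hj.1
  have hνinj : Function.Injective ν := by
    intro i j hij
    by_contra hne
    have h1 := hD'P i
    have h2 := hD'P j
    rw [← hij] at h2
    obtain ⟨x, hx1, hx2⟩ := (P (ν i)).nonempty_of_mem (inter_mem h1 h2)
    exact hne (hdisj' i j x hx1 hx2)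
  -- the sets `C i`
  set C : ℕ → Set α := fun i => ⋃ k, D' (Nat.pair i k) with hC
  have h1 : ∀ i, ∃ k, C i ∈ Q (ν (Nat.pair i k)) := by
    intro i
    by_contra hcon
    push Not at hcon
    have h2 : (Set.range fun k => ν (Nat.pair i k)) ⊆
        {n | n ∈ A ∧ ¬ (C i ∈ P n ↔ C i ∈ Q n)} := by
      rintro _ ⟨k, rfl⟩
      refine ⟨hνA _, ?_⟩
      intro h3
      exact hcon k (h3.1 (mem_of_superset (hD'P (Nat.pair i k))
        (subset_iUnion (fun k => D' (Nat.pair i k)) k)))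
    have h3 : (Set.range fun k => ν (Nat.pair i k)).Infinite := by
      apply infinite_range_of_injective
      intro k k' hk
      have := hνinj hk
      have h4 := congrArg (fun z => (Nat.unpair z).2) this
      simpa using h4
    exact h3 ((hst (C i)).subset h2)
  choose k hk using h1
  set M : Set α := ⋃ i, D' (Nat.pair i (k i)) with hM
  have h2 : ∃ i, M ∈ Q (ν (Nat.pair i (k i))) := by
    by_contra hcon
    push Not at hcon
    have h2 : (Set.range fun i => ν (Nat.pair i (k i))) ⊆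
        {n | n ∈ A ∧ ¬ (M ∈ P n ↔ M ∈ Q n)} := by
      rintro _ ⟨i, rfl⟩
      refine ⟨hνA _, ?_⟩
      intro h3
      exact hcon i (h3.1 (mem_of_superset (hD'P _)
        (subset_iUnion (fun i => D' (Nat.pair i (k i))) i)))
    have h3 : (Set.range fun i => ν (Nat.pair i (k i))).Infinite := by
      apply infinite_range_of_injective
      intro i i' hi
      have := hνinj hi
      have h4 := congrArg (fun z => (Nat.unpair z).1) this
      simpa using h4
    exact h3 ((hst M).subset h2)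
  obtain ⟨i, hi⟩ := h2
  apply hD'Q (Nat.pair i (k i))
  refine mem_of_superset (inter_mem hi (hk i)) ?_
  rintro x ⟨hx1, hx2⟩
  obtain ⟨j, hj⟩ := mem_iUnion.1 hx1
  obtain ⟨l, hl⟩ := mem_iUnion.1 hx2
  have h3 := hdisj' _ _ _ hj hl
  have h4 : j = i := by
    have h4 := congrArg (fun z => (Nat.unpair z).1) h3
    simpa using h4
  rw [h4] at hj
  exact hj

/-- Two pointwise different sequences of ultrafilters are separated on an infinite set. -/
theorem sep (P Q : ℕ → Ultrafilter α) (A : Set ℕ) (hA : A.Infinite)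
    (hPQ : ∀ n ∈ A, P n ≠ Q n) :
    ∃ (B : Set ℕ) (C : Set α), B ⊆ A ∧ B.Infinite ∧ ∀ n ∈ B, C ∈ P n ∧ C ∉ Q n := by
  classical
  by_contra hcon
  push Not at hcon
  have h0 : ∀ C : Set α, {n | n ∈ A ∧ C ∈ P n ∧ C ∉ Q n}.Finite := by
    intro C
    by_contra hinf
    obtain ⟨n, hn, h⟩ := hcon {n | n ∈ A ∧ C ∈ P n ∧ C ∉ Q n} C (fun n hn => hn.1) hinf
    exact hn.2.2 (h hn.2.1)
  have hst : ∀ C : Set α, {n | n ∈ A ∧ ¬ (C ∈ P n ↔ C ∈ Q n)}.Finite := by
    intro C
    apply ((h0 C).union (h0 Cᶜ)).subset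
    rintro n ⟨hn, h⟩
    by_cases h1 : C ∈ P n
    · left
      refine ⟨hn, h1, ?_⟩
      intro h2
      exact h ⟨fun _ => h2, fun _ => h1⟩
    · right
      refine ⟨hn, Ultrafilter.compl_mem_iff_notMem.2 h1, ?_⟩
      intro h2
      rw [Ultrafilter.compl_mem_iff_notMem] at h2
      exact h ⟨fun h => absurd h h1, fun h => absurd h h2⟩
  by_cases hP : (P '' A).Infinite
  · exact sep_aux P Q A hPQ hP hst
  by_cases hQ : (Q '' A).Infinite
  · refine sep_aux Q P A (fun n hn => (hPQ n hn).symm) hQ ?_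
    intro C
    refine (hst C).subset ?_
    rintro n ⟨hn, h⟩
    exact ⟨hn, fun h' => h h'.symm⟩
  rw [Set.not_infinite] at hP hQ
  -- both sequences are constant on an infinite set
  have hfin : ((fun n => (P n, Q n)) '' A).Finite := by
    apply (hP.prod hQ).subset
    rintro _ ⟨n, hn, rfl⟩
    exact ⟨⟨n, hn, rfl⟩, ⟨n, hn, rfl⟩⟩
  apply hA
  apply (hfin.biUnion (t := fun r => {n | n ∈ A ∧ P n = r.1 ∧ Q n = r.2}) ?_).subset
  · intro n hn
    exact mem_biUnion (mem_image_of_mem _ hn) ⟨hn, rfl, rfl⟩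
  · rintro ⟨p, q⟩ ⟨n, hn, hnpq⟩
    have hne : p ≠ q := by
      simp only [Prod.mk.injEq] at hnpq
      rw [← hnpq.1, ← hnpq.2]
      exact hPQ n hn
    obtain ⟨C, hC1, hC2⟩ : ∃ C : Set α, C ∈ p ∧ C ∉ q := by
      by_contra hcon
      push Not at hcon
      apply hne
      apply Ultrafilter.coe_injective
      symm
      apply p.unique
      intro s hs
      exact hcon s hs
    apply (h0 C).subset
    rintro m ⟨hm, rfl, rfl⟩
    exact ⟨hm, hC1, hC2⟩

end Q202.HX
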