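import Mathlib
import Pool.Agent.Q202.HX.Sep
import Pool.Agent.Q202.HX.Gen

set_option autoImplicit false

/-!
# Under CH there is a directed invariant countably compact family of Hausdorff ultrafilters
-/

namespace Q202.HX

open Filter Set Cardinal

/-- Hausdorff ultrafilters on `ℕ`. -/
def Haus (U : Ultrafilter ℕ) : Prop := ∀ f g : ℕ → ℕ, U.map f = U.map g → {n | f n = g n} ∈ U

theorem mem_bind {V : Ultrafilter ℕ} {m : ℕ → Ultrafilter ℕ} {s : Set ℕ} :
    s ∈ V.bind m ↔ {n | s ∈ m n} ∈ V := Iff.rfl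

theorem uf_ext {U V : Ultrafilter ℕ} (h : ∀ s, s ∈ U → s ∈ V) : U = V := by
  apply Ultrafilter.coe_injective
  symm
  exact U.unique h

theorem bind_congr {V : Ultrafilter ℕ} {m m' : ℕ → Ultrafilter ℕ} (h : {n | m n = m' n} ∈ V) :
    V.bind m = V.bind m' := by
  apply uf_ext
  intro s hs
  rw [mem_bind] at hs ⊢
  filter_upwards [hs, h] with n h1 h2
  rw [← h2]
  exact h1

theorem map_bind (V : Ultrafilter ℕ) (m : ℕ → Ultrafilter ℕ) (f : ℕ → ℕ) :
    (V.bind m).map f = V.bind (fun n => (m n).map f) := rfl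

theorem bind_const (V U : Ultrafilter ℕ) : V.bind (fun _ => U) = U := by
  apply uf_ext
  intro s hs
  rw [mem_bind] at hs
  obtain ⟨n, hn⟩ := V.nonempty_of_mem hs
  exact hn

theorem Haus.map {U : Ultrafilter ℕ} (hU : Haus U) (f : ℕ → ℕ) : Haus (U.map f) := by
  intro g h hgh
  rw [Ultrafilter.map_map, Ultrafilter.map_map] at hgh
  exact hU _ _ hgh

theorem haus_pure (n : ℕ) : Haus (pure n) := by
  intro f g h
  rw [Ultrafilter.map_pure, Ultrafilter.map_pure] at h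
  exact Ultrafilter.pure_injective h

/-- `W` is above `U` and all limits of sequences of images of `U` along a certain nonprincipal
ultrafilter are images of `W`. -/
def Above (W U : Ultrafilter ℕ) : Prop :=
  ∃ V : Ultrafilter ℕ, (V : Filter ℕ) ≤ cofinite ∧ ∀ f : ℕ → ℕ → ℕ, ∃ F : ℕ → ℕ,
    W.map F = V.bind (fun n => U.map (f n))

theorem Above.rk {W U : Ultrafilter ℕ} (h : Above W U) : ∃ F : ℕ → ℕ, W.map F = U := by
  obtain ⟨V, -, h⟩ := h
  obtain ⟨F, hF⟩ := h (fun _ => id)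
  refine ⟨F, ?_⟩
  rw [hF]
  exact bind_const V U

theorem Above.trans {W' W U : Ultrafilter ℕ} (h : Above W U) (h' : Above W' W) : Above W' U := by
  obtain ⟨G, hG⟩ := h'.rk
  obtain ⟨V, hV, h⟩ := h
  refine ⟨V, hV, ?_⟩
  intro f
  obtain ⟨F, hF⟩ := h f
  refine ⟨F ∘ G, ?_⟩
  rw [← Ultrafilter.map_map, hG, hF]

theorem Above.nonprincipal {W U : Ultrafilter ℕ} (h : Above W U) : (W : Filter ℕ) ≤ cofinite := by
  obtain ⟨V, hV, h⟩ := h
  obtain ⟨F, hF⟩ := h (fun n _ => n)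
  intro s hs
  by_contra hcon
  rw [mem_cofinite] at hs
  have h1 : sᶜ ∈ W := Ultrafilter.compl_mem_iff_notMem.2 hcon
  have h2 : F '' sᶜ ∈ W.map F := by
    rw [Ultrafilter.mem_map]
    exact mem_of_superset h1 (subset_preimage_image F sᶜ)
  rw [hF, mem_bind] at h2
  have h3 : (F '' sᶜ)ᶜ ∈ V := hV ((hs.image F).compl_mem_cofinite)
  obtain ⟨n, hn1, hn2⟩ := V.nonempty_of_mem (inter_mem h2 h3)
  have h4 : F '' sᶜ ∈ U.map (fun _ => n) := hn1
  rw [Ultrafilter.mem_map] at h4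
  obtain ⟨x, hx⟩ := U.nonempty_of_mem h4
  exact hn2 hx

/-- The diagonal construction. -/
theorem exists_above (hCH : (𝔠 : Cardinal.{0}) = ℵ₁) (s : ℕ → Ultrafilter ℕ) (hs : ∀ n, Haus (s n)) :
    ∃ W : Ultrafilter ℕ, Haus W ∧
      ∀ U : Ultrafilter ℕ, (∀ᶠ n in cofinite, ∃ h : ℕ → ℕ, (s n).map h = U) → Above W U := by
  classical
  have hcard : #((ℕ → ℕ → ℕ) × (ℕ → ℕ → ℕ)) ≤ ℵ₁ := by
    rw [← hCH]
    simp
  obtain ⟨V, hV, hVD⟩ := generic hcard
    (fun p => {B : Set ℕ | (∀ n ∈ B, (s n).map (p.1 n) = (s n).map (p.2 n)) ∨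
      ∃ C : Set ℕ, ∀ n ∈ B, C ∈ (s n).map (p.1 n) ∧ C ∉ (s n).map (p.2 n)}) (by
    rintro ⟨F, G⟩ A hA
    by_cases hE : {n | n ∈ A ∧ (s n).map (F n) = (s n).map (G n)}.Infinite
    · exact ⟨_, fun n hn => hn.1, hE, Or.inl fun n hn => hn.2⟩
    · rw [Set.not_infinite] at hE
      have hA' : (A \ {n | n ∈ A ∧ (s n).map (F n) = (s n).map (G n)}).Infinite := hA.sdiff hE
      obtain ⟨B, C, hB1, hB2, hB3⟩ := sep (fun n => (s n).map (F n)) (fun n => (s n).map (G n))
        (A \ {n | n ∈ A ∧ (s n).map (F n) = (s n).map (G n)}) hA' (by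
          rintro n ⟨hn1, hn2⟩ h
          exact hn2 ⟨hn1, h⟩)
      exact ⟨B, hB1.trans sdiff_subset, hB2, Or.inr ⟨C, hB3⟩⟩)
  refine ⟨V.bind (fun n => (s n).map (Nat.pair n)), ?_, ?_⟩
  · intro f g hfg
    obtain ⟨B, hB, h | ⟨C, hC⟩⟩ := hVD (fun n => f ∘ Nat.pair n, fun n => g ∘ Nat.pair n)
    · rw [mem_bind]
      refine mem_of_superset hB ?_
      intro n hn
      have h1 := hs n _ _ (h n hn)
      exact h1
    · exfalso
      have h1 : C ∈ (V.bind (fun n => (s n).map (Nat.pair n))).map f := by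
        rw [map_bind, mem_bind]
        refine mem_of_superset hB ?_
        intro n hn
        exact (hC n hn).1
      have h2 : Cᶜ ∈ (V.bind (fun n => (s n).map (Nat.pair n))).map g := by
        rw [map_bind, mem_bind]
        refine mem_of_superset hB ?_
        intro n hn
        exact Ultrafilter.compl_mem_iff_notMem.2 (hC n hn).2
      rw [hfg] at h1
      exact (Ultrafilter.compl_mem_iff_notMem.1 h2) h1
  · intro U hU
    refine ⟨V, hV, ?_⟩
    intro f
    let h : ℕ → ℕ → ℕ := fun n => if hn : ∃ h : ℕ → ℕ, (s n).map h = U then hn.choose else id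
    refine ⟨fun k => f (Nat.unpair k).1 (h (Nat.unpair k).1 (Nat.unpair k).2), ?_⟩
    rw [map_bind]
    apply bind_congr
    refine mem_of_superset (hV hU) ?_
    intro n hn
    have h1 : (s n).map (h n) = U := by
      have h2 : h n = Exists.choose hn := dif_pos hn
      rw [h2]
      exact hn.choose_spec
    change ((s n).map (Nat.pair n)).map _ = U.map (f n)
    rw [← h1, Ultrafilter.map_map, Ultrafilter.map_map]
    congr 1
    funext m
    simp

/-- A countable directed family has a common bound. -/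
theorem exists_above_seq (hCH : (𝔠 : Cardinal.{0}) = ℵ₁) (u : ℕ → Ultrafilter ℕ) (hu : ∀ n, Haus (u n))
    (hdir : ∀ m n, ∃ k, (∃ h : ℕ → ℕ, (u k).map h = u m) ∧ ∃ h : ℕ → ℕ, (u k).map h = u n) :
    ∃ W : Ultrafilter ℕ, Haus W ∧ ∀ n, Above W (u n) := by
  let r : Ultrafilter ℕ → Ultrafilter ℕ → Prop := fun U W => ∃ h : ℕ → ℕ, W.map h = U
  have hr : Directed r u := by
    intro m n
    obtain ⟨k, h1, h2⟩ := hdir m n
    exact ⟨k, h1, h2⟩
  have htrans : ∀ U V W, r U V → r V W → r U W := by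
    rintro U V W ⟨h, rfl⟩ ⟨g, rfl⟩
    exact ⟨h ∘ g, by rw [Ultrafilter.map_map]⟩
  have hrefl : ∀ U, r U U := fun U => ⟨id, Ultrafilter.map_id U⟩
  let s : ℕ → Ultrafilter ℕ := fun n => u (hr.sequence u n)
  have hmono : ∀ n k, r (s n) (s (n + k)) := by
    intro n k
    induction k with
    | zero => exact hrefl _
    | succ k ih => exact htrans _ _ _ ih (hr.sequence_mono_nat (n + k))
  obtain ⟨W, hW1, hW2⟩ := exists_above hCH s (fun n => hu _)
  refine ⟨W, hW1, ?_⟩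
  intro n
  apply hW2
  rw [Nat.cofinite_eq_atTop]
  filter_upwards [eventually_ge_atTop (Encodable.encode n + 1)] with m hm
  have h1 : r (u n) (s (Encodable.encode n + 1)) := hr.rel_sequence n
  have h2 := hmono (Encodable.encode n + 1) (m - (Encodable.encode n + 1))
  rw [Nat.add_sub_cancel' hm] at h2
  exact htrans _ _ _ h1 h2

/-- **Under CH there is a directed invariant family of Hausdorff ultrafilters which is closed under
some limit of every sequence.** -/
theorem exists_family (hCH : (𝔠 : Cardinal.{0}) = ℵ₁) : ∃ H : Set (Ultrafilter ℕ),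
    (∀ n, pure n ∈ H) ∧ (∃ U ∈ H, (U : Filter ℕ) ≤ cofinite) ∧
    (∀ U ∈ H, ∀ f : ℕ → ℕ, U.map f ∈ H) ∧
    (∀ U ∈ H, Haus U) ∧
    (∀ U ∈ H, ∀ V ∈ H, ∃ W ∈ H, ∃ p q : ℕ → ℕ, W.map p = U ∧ W.map q = V) ∧
    (∀ x : ℕ → Ultrafilter ℕ, (∀ n, x n ∈ H) → ∃ V : Ultrafilter ℕ, (V : Filter ℕ) ≤ cofinite ∧
      V.bind x ∈ H) := by
  classical
  let r : {U : Ultrafilter ℕ // Haus U} → {U : Ultrafilter ℕ // Haus U} → Prop :=
    fun U W => Above W.1 U.1
  have hmax := maxChain_spec (r := r)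
  set 𝒞 := maxChain r with h𝒞
  have hne : 𝒞.Nonempty := by
    by_contra hcon
    rw [Set.not_nonempty_iff_eq_empty] at hcon
    have h1 : IsChain r {(⟨pure 0, haus_pure 0⟩ : {U : Ultrafilter ℕ // Haus U})} :=
      Set.pairwise_singleton _ _
    have h2 := hmax.2 h1 (by rw [hcon]; exact empty_subset _)
    rw [hcon] at h2
    exact absurd h2.symm (singleton_ne_empty _)
  -- countable subsets are strictly bounded
  have hbd : ∀ u : ℕ → {U : Ultrafilter ℕ // Haus U}, (∀ n, u n ∈ 𝒞) →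
      ∃ W ∈ 𝒞, ∀ n, Above W.1 (u n).1 := by
    intro u hu
    obtain ⟨W₀, hW₀, hW₀u⟩ := exists_above_seq hCH (fun n => (u n).1) (fun n => (u n).2) (by
      intro m n
      by_cases hmn : u m = u n
      · refine ⟨m, ⟨id, Ultrafilter.map_id _⟩, ⟨id, ?_⟩⟩
        rw [← hmn]
        exact Ultrafilter.map_id _
      · rcases hmax.1 (hu m) (hu n) hmn with h | h
        · exact ⟨n, h.rk, ⟨id, Ultrafilter.map_id _⟩⟩
        · exact ⟨m, ⟨id, Ultrafilter.map_id _⟩, h.rk⟩)
    by_cases hch : IsChain r (insert ⟨W₀, hW₀⟩ 𝒞)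
    · have h1 := hmax.2 hch (subset_insert _ _)
      refine ⟨⟨W₀, hW₀⟩, ?_, hW₀u⟩
      rw [h1]
      exact mem_insert _ _
    · -- an incomparable element
      have h1 : ∃ U' ∈ 𝒞, ¬ Above W₀ U'.1 := by
        by_contra hcon
        push Not at hcon
        apply hch
        apply hmax.1.insert
        intro b hb _
        right
        exact hcon b hb
      obtain ⟨U', hU', hU'2⟩ := h1
      refine ⟨U', hU', ?_⟩
      intro n
      by_cases hn : U' = u n
      · exact absurd (by rw [hn]; exact hW₀u n) hU'2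
      · rcases hmax.1 hU' (hu n) hn with h | h
        · exact absurd (Above.trans h (hW₀u n)) hU'2
        · exact h
  obtain ⟨U₀, hU₀⟩ := hne
  refine ⟨{U | ∃ W ∈ 𝒞, ∃ f : ℕ → ℕ, W.1.map f = U}, ?_, ?_, ?_, ?_, ?_, ?_⟩
  · intro n
    refine ⟨U₀, hU₀, fun _ => n, ?_⟩
    apply uf_ext
    intro s hs
    rw [Ultrafilter.mem_map] at hs
    obtain ⟨x, hx⟩ := Ultrafilter.nonempty_of_mem hs
    exact hx
  · obtain ⟨W, hW, hW2⟩ := hbd (fun _ => U₀) (fun _ => hU₀)
    exact ⟨W.1, ⟨W, hW, id, Ultrafilter.map_id _⟩, (hW2 0).nonprincipal⟩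
  · rintro _ ⟨W, hW, f, rfl⟩ g
    exact ⟨W, hW, g ∘ f, by rw [Ultrafilter.map_map]⟩
  · rintro _ ⟨W, hW, f, rfl⟩
    exact W.2.map f
  · rintro _ ⟨W, hW, f, rfl⟩ _ ⟨W', hW', f', rfl⟩
    obtain ⟨W'', hW'', h⟩ := hbd (fun n => if n = 0 then W else W') (by
      intro n
      by_cases hn : n = 0
      · simp only [hn, if_true]
        exact hW
      · simp only [hn, if_false]
        exact hW')
    obtain ⟨g, hg⟩ := (h 0).rk
    obtain ⟨g', hg'⟩ := (h 1).rk
    simp only [if_true, one_ne_zero, if_false] at hg hg'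
    refine ⟨W''.1, ⟨W'', hW'', id, Ultrafilter.map_id _⟩, f ∘ g, f' ∘ g', ?_, ?_⟩
    · rw [← Ultrafilter.map_map, hg]
    · rw [← Ultrafilter.map_map, hg']
  · intro x hx
    choose W hW f hf using hx
    obtain ⟨W', hW', h⟩ := hbd W hW
    choose g hg using fun n => (h n).rk
    obtain ⟨W'', hW'', h''⟩ := hbd (fun _ => W') (fun _ => hW')
    obtain ⟨V, hV, hV2⟩ := h'' 0
    refine ⟨V, hV, ?_⟩
    obtain ⟨F, hF⟩ := hV2 (fun n => f n ∘ g n)
    refine ⟨W'', hW'', F, ?_⟩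
    rw [hF]
    congr 1
    funext n
    rw [← Ultrafilter.map_map, hg, hf]

end Q202.HX
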