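import Mathlib
import Pool.Agent.Q202.HX.Chain

set_option autoImplicit false

/-!
# Countable compactness of sets of ultrafilters
-/

namespace Q202.HX

open Filter Set

/-- A set of ultrafilters which contains some limit along a nonprincipal ultrafilter of every
sequence of its elements is countably compact. -/
theorem cc (H : Set (Ultrafilter ℕ))
    (hlim : ∀ x : ℕ → Ultrafilter ℕ, (∀ n, x n ∈ H) →
      ∃ V : Ultrafilter ℕ, (V : Filter ℕ) ≤ cofinite ∧ V.bind x ∈ H)
    (O : ℕ → Set H) (hO : ∀ n, IsOpen (O n)) (hcov : ⋃ n, O n = univ) :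
    ∃ F : Finset ℕ, ⋃ n ∈ F, O n = univ := by
  classical
  by_contra hcon
  push Not at hcon
  have h1 : ∀ n, ∃ x : H, x ∉ ⋃ k ∈ Finset.range (n + 1), O k := by
    intro n
    by_contra h
    push Not at h
    exact hcon _ (Set.eq_univ_of_forall h)
  choose x hx using h1
  obtain ⟨V, hV, hVH⟩ := hlim (fun n => (x n).1) (fun n => (x n).2)
  have h2 : (⟨V.bind (fun n => (x n).1), hVH⟩ : H) ∈ ⋃ n, O n := by
    rw [hcov]
    exact mem_univ _
  obtain ⟨k, hk⟩ := mem_iUnion.1 h2
  have h3 := hO k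
  rw [isOpen_induced_iff] at h3
  obtain ⟨W, hW, hWO⟩ := h3
  rw [← hWO] at hk
  obtain ⟨_, ⟨C, rfl⟩, hC1, hC2⟩ :=
    ultrafilterBasis_is_basis.exists_subset_of_mem_open (a := V.bind (fun n => (x n).1)) hk hW
  have h4 : {n | C ∈ (x n).1} ∈ V := hC1
  have h5 : {n | k ≤ n} ∈ V := by
    apply hV
    rw [mem_cofinite]
    apply (Set.finite_Iio k).subset
    intro n hn
    simpa using hn
  obtain ⟨n, hn1, hn2⟩ := V.nonempty_of_mem (inter_mem h4 h5)
  apply hx n
  have h6 : x n ∈ O k := by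
    rw [← hWO]
    exact hC2 hn1
  exact mem_biUnion (Finset.mem_coe.2 (Finset.mem_range.2 (Nat.lt_succ_of_le hn2))) h6

theorem eq_pure {U : Ultrafilter ℕ} {k : ℕ} (h : {k} ∈ U) : U = pure k := by
  apply uf_ext
  intro s hs
  obtain ⟨x, hx1, hx2⟩ := U.nonempty_of_mem (inter_mem hs h)
  rw [Set.mem_singleton_iff] at hx2
  rw [← hx2]
  exact hx1

theorem map_congr {U : Ultrafilter ℕ} {f g : ℕ → ℕ} (h : {n | f n = g n} ∈ U) :
    U.map f = U.map g := by
  apply uf_ext
  intro s hs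
  rw [Ultrafilter.mem_map] at hs ⊢
  filter_upwards [hs, h] with n h1 h2
  change g n ∈ s
  rw [← h2]
  exact h1

end Q202.HX
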